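import Pool.Agent.Results.MP_1e70ae_co.Superlinear

/-!
# The exponent of `t` in the rainbow `t`-matching number `f(r,t)` is unbounded in `r`

`f(r,t)` is the largest number of colours of an `r`-partite `r`-graph all of whose colour classes
are matchings of size `t` and which has no rainbow matching of size `t` (`Avoids r t f` says that
`f` colours are possible).  There are no absolute constant `b` and function `c` of `r` with
`f(r,t) ≤ c r * t ^ b`: the exponent of `t` is at least `⌊(r-3)/2⌋` for every `r ≥ 3`.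
-/

namespace Pool.Agent.Results.MP_2ae433_co.NoAbsoluteExponent

open Pool.Agent.Results.MP_1e70ae_co.Superlinear Filter

/-- For every `r ≥ 3` there is `c > 0` with `f(r,t) ≥ c t ^ ⌊(r-3)/2⌋` for all `t ≥ 2`. -/
theorem lower (r : ℕ) (hr : 3 ≤ r) : ∃ c : ℝ, 0 < c ∧ ∀ t : ℕ, 2 ≤ t →
    ∃ f : ℕ, Avoids r t f ∧ c * (t : ℝ) ^ ((r - 3) / 2) ≤ f := by
  have hD : 1 ≤ (r - 1) / 2 := by omega
  refine ⟨1 / (4 * ((r - 1) / 2 : ℕ)), by
    have : (0 : ℝ) < ((r - 1) / 2 : ℕ) := by exact_mod_cast hD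
    positivity, fun t ht => ?_⟩
  obtain ⟨f, hf, hb⟩ := bound_odd ((r - 1) / 2) r t hD (by omega) ht
  refine ⟨f, hf, ?_⟩
  have e : (r - 3) / 2 = (r - 1) / 2 - 1 := by omega
  rw [e]
  exact hb

/-- For every `b` and every `r > 2 b + 4` the quotient `f(r,t) / t ^ b` tends to infinity. -/
theorem unbounded (b : ℝ) (r : ℕ) (hr : 3 ≤ r) (hb : 2 * b + 4 < r) (A : ℝ) :
    ∃ N : ℕ, ∀ t : ℕ, N ≤ t → ∃ f : ℕ, Avoids r t f ∧ A * (t : ℝ) ^ b ≤ f := by
  obtain ⟨c, hc, hlow⟩ := lower r hr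
  have hδ : 0 < (((r - 3) / 2 : ℕ) : ℝ) - b := by
    have h1 : r ≤ 2 * ((r - 3) / 2) + 4 := by omega
    have h2 : (r : ℝ) ≤ 2 * (((r - 3) / 2 : ℕ) : ℝ) + 4 := by exact_mod_cast h1
    linarith
  have htend : Tendsto (fun t : ℕ => (t : ℝ) ^ ((((r - 3) / 2 : ℕ) : ℝ) - b)) atTop atTop :=
    (tendsto_rpow_atTop hδ).comp tendsto_natCast_atTop_atTop
  obtain ⟨N, hN⟩ := (tendsto_atTop_atTop.1 htend) (A / c)
  refine ⟨max N 2, fun t ht => ?_⟩
  have ht2 : 2 ≤ t := le_trans (le_max_right _ _) ht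
  have htN : N ≤ t := le_trans (le_max_left _ _) ht
  have ht0 : (0 : ℝ) < t := by exact_mod_cast (by omega : 0 < t)
  obtain ⟨f, hf, hb'⟩ := hlow t ht2
  refine ⟨f, hf, le_trans ?_ hb'⟩
  have h1 := hN t htN
  rw [div_le_iff₀ hc] at h1
  have h2 : (t : ℝ) ^ ((r - 3) / 2) =
      (t : ℝ) ^ ((((r - 3) / 2 : ℕ) : ℝ) - b) * (t : ℝ) ^ b := by
    rw [← Real.rpow_add ht0, sub_add_cancel, Real.rpow_natCast]
  rw [h2, ← mul_assoc]
  exact mul_le_mul_of_nonneg_right (by linarith) (Real.rpow_nonneg ht0.le _)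

/-- **No polynomial bound on `f(r,t)` with an absolute exponent.** For no constant `b` and no
function `c` of `r` is `f(r,t) ≤ c r * t ^ b` for all `r, t ≥ 2`; quantitatively, for every
`r ≥ 3` there is `c > 0` with `f(r,t) ≥ c t ^ ⌊(r-3)/2⌋` for all `t ≥ 2`. -/
theorem result :
    (¬ ∃ (b : ℝ) (c : ℕ → ℝ), ∀ r t : ℕ, 2 ≤ r → 2 ≤ t → ∀ f : ℕ, Avoids r t f →
      (f : ℝ) ≤ c r * (t : ℝ) ^ b) ∧
    ∀ r : ℕ, 3 ≤ r → ∃ c : ℝ, 0 < c ∧ ∀ t : ℕ, 2 ≤ t →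
      ∃ f : ℕ, Avoids r t f ∧ c * (t : ℝ) ^ ((r - 3) / 2) ≤ f := by
  refine ⟨?_, fun r hr => lower r hr⟩
  rintro ⟨b, c, h⟩
  obtain ⟨r, hr⟩ := exists_nat_gt (2 * b + 4)
  obtain ⟨N, hN⟩ := unbounded b (max r 3) (le_max_right _ _)
    (lt_of_lt_of_le hr (by exact_mod_cast le_max_left _ _)) (c (max r 3) + 1)
  obtain ⟨f, hf, hA⟩ := hN (max N 2) (le_max_left _ _)
  have h1 := h (max r 3) (max N 2) (le_trans (by norm_num) (le_max_right r 3))
    (le_max_right _ _) f hf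
  have ht0 : (0 : ℝ) < ((max N 2 : ℕ) : ℝ) := by
    have : 0 < max N 2 := lt_of_lt_of_le (by norm_num) (le_max_right N 2)
    exact_mod_cast this
  have h2 : 0 < ((max N 2 : ℕ) : ℝ) ^ b := Real.rpow_pos_of_pos ht0 b
  nlinarith

end Pool.Agent.Results.MP_2ae433_co.NoAbsoluteExponent
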